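import Pool.Agent.H705.FP.Stm

/-! # Fixed phases, second part: the function itself outside a sparse set

Every `P_X` is one part; its docstring is a complete paper proof. -/

set_option autoImplicit false

namespace Pool.Agent.H705.FP

open MeasureTheory ProbabilityTheory Filter Topology Finset

/-- at most `B log (y + 2)` of the `g n` lie in `[y, y + 1]`, for every `y ≥ 0` -/
def Spc (B : ℝ) (g : ℕ → ℝ) : Prop :=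
  ∀ y : ℝ, 0 ≤ y → ∀ s : Finset ℕ, (∀ n ∈ s, y ≤ g n ∧ g n ≤ y + 1) → (s.card : ℝ) ≤ B * Real.log (y + 2)

/-- `⌊k ^ (1 / (A + 2))⌋` -/
noncomputable def nf (A k : ℕ) : ℕ := ⌊(k : ℝ) ^ ((1 : ℝ) / ((A : ℝ) + 2))⌋₊

/-- the exceptional set: the times `t ≥ 0` at which `S` and the partial sum of length `nf A ⌊t⌋` differ by at least `1` -/
def Exc (A : ℕ) (W : ℕ → ℝ → ℝ) (S : ℝ → ℝ) : Set ℝ := {t : ℝ | 0 ≤ t ∧ 1 ≤ |S t - RO.part W (nf A ⌊t⌋₊) t|}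

/-- mean square bounds for the blocks over the unit intervals -/
def MSB (W : ℕ → ℝ → ℝ) : Prop :=
  ∀ m : ℕ, ∃ C : ℝ, 0 ≤ C ∧ ∀ T : ℝ, ∀ N M : ℕ, 1 ≤ N → N ≤ M →
    ∫ y in T..T + 1, (∑ n ∈ Ico N M, W n y) ^ 2 ≤ C * (N : ℝ) ^ (-(RO.pe m))

/-- `S` is the sum of the series in mean square, with the bounds for the measures of the sets where it is not approximated -/
def Appr (W : ℕ → ℝ → ℝ) (S : ℝ → ℝ) : Prop :=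
  Measurable S ∧ (∀ t : ℝ, 0 ≤ t → IntervalIntegrable S volume 0 t ∧
    Tendsto (fun N : ℕ => ∫ y in (0 : ℝ)..t, RO.part W N y) atTop (𝓝 (∫ y in (0 : ℝ)..t, S y))) ∧
  ∀ m : ℕ, ∃ C : ℝ, 0 ≤ C ∧ ∀ k N : ℕ, 1 ≤ N →
    (volume : Measure ℝ) {y : ℝ | (k : ℝ) ≤ y ∧ y ≤ k + 1 ∧ 1 ≤ |S y - RO.part W N y|} ≤
      ENNReal.ofReal (C * (N : ℝ) ^ (-(RO.pe m)))

/-- **TRI.** `|∫_{c-1}^{c+1} (1 - |y - c|) cos (l y + r) dy| ≤ 5 / (1 + l ^ 2)`.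
Proof. The weight is nonnegative with integral `1`, so the integral is at most `1 ≤ 5 / (1 + l ^ 2)` if `l ^ 2 ≤ 4`. If
`l ^ 2 > 4`: split at `c`; an antiderivative of `(1 + (y - c)) cos (l y + r)` is
`(1 + (y - c)) sin (l y + r) / l + cos (l y + r) / l ^ 2` and one of `(1 - (y - c)) cos (l y + r)` is
`(1 - (y - c)) sin (l y + r) / l - cos (l y + r) / l ^ 2`; the total is
`(2 cos (l c + r) - cos (l (c - 1) + r) - cos (l (c + 1) + r)) / l ^ 2`, at most `4 / l ^ 2 ≤ 5 / (1 + l ^ 2)`. -/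
def P_TRI : Prop :=
  ∀ c l r : ℝ, |∫ y in c - 1..c + 1, (1 - |y - c|) * Real.cos (l * y + r)| ≤ 5 / (1 + l ^ 2)

/-- **CNT.** With `γ n = g n + w n u n`, `0 ≤ u n ≤ 1`: `∑_{m ∈ s} 5 / (1 + (γ m - γ n) ^ 2) ≤ C log (n + 2)` for all `n` and all
finite sets `s`.
Proof. Let `j = ⌊g n⌋` and group the `m ∈ s` by `k = ⌊g m⌋` (`g ≥ 0`): by `Spc B g` there are at most `B log (k + 2)` of them for every
`k`. `γ m ∈ [k, k + 2)`, `γ n ∈ [j, j + 2)`, so `1 + (γ m - γ n) ^ 2 ≥ (1 + (k - j) ^ 2) / 10` (if `d = |k - j| ≤ 2` the right side is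
at most `1`, otherwise `|γ m - γ n| ≥ d - 2` and `1 + (d - 2) ^ 2 ≥ (1 + d ^ 2) / 10`). `k + 2 ≤ (j + 2) (d + 2)`, so the sum is at most
`∑_k 50 B (log (j + 2) + log (d + 2)) / (1 + d ^ 2)`, every `d ≥ 0` occurs for at most two `k`, and `log (d + 2) ≤ 2 √(d + 2)` (or
`≤ d + 1` is not enough; use the square root), so the sum is at most `C₀ B log (j + 2)` (`log (j + 2) ≥ log 2 > 0`). Finally
`j + 2 ≤ (n + 2) ^ A + 2 ≤ (n + 2) ^ (A + 2)`, `log (j + 2) ≤ (A + 2) log (n + 2)`. (`B ≥ 0` follows from `s = ∅`.) -/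
def P_CNT : Prop :=
  ∀ (A : ℕ) (B : ℝ) (g w : ℕ → ℝ), WinU A g w → Spc B g → ∃ C : ℝ, 0 ≤ C ∧ ∀ u : ℕ → ℝ, (∀ n, u n ∈ Set.Icc (0 : ℝ) 1) →
    ∀ (n : ℕ) (s : Finset ℕ), ∑ m ∈ s, 5 / (1 + (om g w u m - om g w u n) ^ 2) ≤ C * Real.log ((n : ℝ) + 2)

/-- **L2B.** Mean square bound over unit intervals from TRI and a bound as in CNT.
Proof. Let `c = T + 1/2`, `[T, T + 1] ⊆ [c - 1, c + 1]`, `1 - |y - c| ≥ 1/2` on `[T, T + 1]` and `≥ 0` on `[c - 1, c + 1]`. So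
`∫_T^{T+1} (∑ W n) ^ 2 ≤ 2 ∫_{c-1}^{c+1} (1 - |y - c|) (∑ W n) ^ 2`. Expand: `(∑ W n) ^ 2 = ∑_{m,n} a m a n cos θ m cos θ n` with
`cos θ m cos θ n = (cos (θ m - θ n) + cos (θ m + θ n)) / 2`, `θ n = γ n y + β n`. By TRI the integral of each term is at most
`(1/2) (5 / (1 + (γ m - γ n) ^ 2) + 5 / (1 + (γ m + γ n) ^ 2)) ≤ 5 / (1 + (γ m - γ n) ^ 2)` (`γ ≥ 0`). With
`a m a n ≤ (a m ^ 2 + a n ^ 2) / 2` and symmetry the total is at most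
`2 ∑_n a n ^ 2 ∑_m 5 / (1 + (γ m - γ n) ^ 2) ≤ 2 C ∑_n a n ^ 2 log (n + 2)`. -/
def P_L2B : Prop :=
  ∀ (a β γ : ℕ → ℝ) (C : ℝ), (∀ n, 0 ≤ a n) → (∀ n, 0 ≤ γ n) → 0 ≤ C →
    (∀ (n : ℕ) (s : Finset ℕ), ∑ m ∈ s, 5 / (1 + (γ m - γ n) ^ 2) ≤ C * Real.log ((n : ℝ) + 2)) →
    ∀ (T : ℝ) (N M : ℕ), ∫ y in T..T + 1, (∑ n ∈ Ico N M, wv a β γ n y) ^ 2 ≤
      2 * C * ∑ n ∈ Ico N M, a n ^ 2 * Real.log ((n : ℝ) + 2)

/-- **TLA.** `∑_{N ≤ n < M} a n ^ 2 log (n + 2) ≤ C N ^ (-pe m)` for `1 ≤ N ≤ M`.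
Proof. Let `ε = 1 / (2 (m + 2))`, `1 - ε > pe m`. By `RO.Amp a` `∑_{2^j ≤ n < 2^(j+1)} a n ^ 2 ≤ C 2 ^ (-(1 - ε) j)`, and
`log (n + 2) ≤ (j + 2)` there. Let `2 ^ J ≤ N < 2 ^ (J+1)`; the sum over `n ≥ N` is at most
`∑_{j ≥ J} C (j + 2) 2 ^ (-(1 - ε) j) ≤ 2 ^ (-(pe m) J) ∑_{j} C (j + 2) 2 ^ (-ε j) ≤ C' N ^ (-pe m)`
(`1 - ε = pe m + ε`; `2 ^ (-J) ≤ 2 / N`). -/
def P_TLA : Prop :=
  ∀ a : ℕ → ℝ, RO.Amp a → ∀ m : ℕ, ∃ C : ℝ, 0 ≤ C ∧ ∀ N M : ℕ, 1 ≤ N → N ≤ M →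
    ∑ n ∈ Ico N M, a n ^ 2 * Real.log ((n : ℝ) + 2) ≤ C * (N : ℝ) ^ (-(RO.pe m))

/-- **EXS** (existence of `S`). Continuous functions `W n` with the mean square bounds `MSB`.
Proof. Let `N_j = 16 ^ j` and `B_j = ∑_{N_j ≤ n < N_{j+1}} W n`. By MSB with `m = 0` (`pe 0 = 1/2`): `∫_T^{T+1} B_j ^ 2 ≤ C 4 ^ (-j)`, so
`∫_T^{T+1} |B_j| ≤ √C 2 ^ (-j)` (Cauchy–Schwarz, or `|x| ≤ (2 ^ (-j) + 2 ^ j x ^ 2) / 2`), and `∑_j |B_j|` is integrable on every bounded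
interval, in particular finite for almost all `y`. Let `S y = W 0 y + ∑' j, B_j y` where the series converges absolutely and
`S y = 0` elsewhere (`tsum` does this up to the term `W 0`): measurable (`Measurable.tsum` or limits), and
`part W N_j y → S y` for almost all `y`, dominated by `|W 0| + ∑ |B_i|`, so `∫_0^t part W N_j → ∫_0^t S`. For general `N` with
`N_j ≤ N < N_{j+1}`, `∫_0^t |part W N - part W N_j| ≤ (t + 1) √C 2 ^ (-j)` (MSB for `N_j ≤ n < N` on the unit intervals), so the whole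
sequence converges. Third part: by Fatou (`lintegral_liminf_le`) and MSB for `m`,
`∫_k^{k+1} (S - part W N) ^ 2 ≤ liminf_j ∫_k^{k+1} (part W N_j - part W N) ^ 2 ≤ C N ^ (-pe m)`, and the set where
`|S - part W N| ≥ 1` has at most this measure (Markov; `mul_meas_ge_le_lintegral₀`). -/
def P_EXS : Prop :=
  ∀ W : ℕ → ℝ → ℝ, (∀ n, Continuous (W n)) → MSB W → ∃ S : ℝ → ℝ, Appr W S

/-- **MEA.** The exceptional set has measure at most `C T ^ (1 - 1 / (2 A + 4))` in `[0, T]`, `T ≥ 1`, and at most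
`C k ^ (-1 / (2 A + 4))` in `[k, k + 1]`, `k ≥ 1`.
Proof. On `[k, k + 1)`, `⌊t⌋ = k`, so `Exc ∩ [k, k + 1)` is contained in the set of `Appr` with `N = nf A k`, and the point `k + 1` is a
null set. For `k ≥ 1` `nf A k ≥ 1` and `nf A k ≥ k ^ (1/(A+2)) / 2`, so with `m = 0` (`pe 0 = 1/2`) the measure is at most
`C (nf A k) ^ (-1/2) ≤ 2 C k ^ (-1/(2 A + 4))`. For `k = 0` it is at most `1`. Sum over `k ≤ T`:
`1 + ∑_{1 ≤ k ≤ T} 2 C k ^ (-s) ≤ 1 + 2 C (1 + T ^ (1 - s) / (1 - s))`, `s = 1 / (2 A + 4) ≤ 1/4` (compare with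
`∫_0^T y ^ (-s) dy`, or use `k ^ (-s) = k ^ (-s)`, `∑_{k ≤ T} k ^ (-s) ≤ ∑ T ^ (1-s) …`: for `1 ≤ k`, `k ^ (-s) ≤ 2 (k ^ (1-s) - (k-1) ^ (1-s))`,
which telescopes). -/
def P_MEA : Prop :=
  ∀ (A : ℕ) (W : ℕ → ℝ → ℝ) (S : ℝ → ℝ), Appr W S → ∃ C : ℝ, 0 ≤ C ∧
    (∀ T : ℝ, 1 ≤ T → (volume : Measure ℝ) (Exc A W S ∩ Set.Icc 0 T) ≤ ENNReal.ofReal (C * T ^ (1 - 1 / (2 * (A : ℝ) + 4)))) ∧
    ∀ k : ℕ, 1 ≤ k → (volume : Measure ℝ) (Exc A W S ∩ Set.Icc (k : ℝ) (k + 1)) ≤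
      ENNReal.ofReal (C * (k : ℝ) ^ (-(1 / (2 * (A : ℝ) + 4))))

/-- **UPE** (deterministic). Upper bound for `S` outside the exceptional set.
Proof. For `t ∉ Exc`, `t ≥ 0`: `|S t| ≤ |part W N t| + 1` with `N = nf A ⌊t⌋`, `N ^ (A+2) ≤ ⌊t⌋ ≤ t`. Choose `q > 1` with `b q ^ κ < b'` and
`m` with `q pe m ≥ 1`. Let `k = ⌈log t / log 2⌉₊`, `t ≤ 2 ^ k`, `J = ⌈q log k / log 2⌉₊`, `2 ^ J ≤ N` for large `t`. `UTL` with `M = 2 ^ J`,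
`M' = N`: `|part W N t| ≤ R a (2^J) + K 2 ^ (-pe m J / 2) √(J + k + 1) ≤ R a (2^J) + 2 K`,
`R a (2^J) ≤ b (q log k + log 2) ^ κ ≤ b (q log log t + 2 q + 1) ^ κ`. The finished file `Pool/Agent/H117/FP/T_UPA.lean` contains this
estimate in the proof of `P_UPA` (for `t ≤ y ≤ t + 1`): edit it. -/
def P_UPE : Prop :=
  ∀ (W : ℕ → ℝ → ℝ) (S : ℝ → ℝ) (a : ℕ → ℝ) (A : ℕ) (κ b b' : ℝ), (∀ n, 0 ≤ a n) → UTL A W →
    (∀ N t, |RO.part W N t| ≤ RO.R a N) → 0 < κ → 0 ≤ b → b < b' → (∀ᶠ N : ℕ in atTop, RO.R a N ≤ b * Real.log N ^ κ) →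
    ∀ᶠ t : ℝ in atTop, t ∉ Exc A W S → |S t| ≤ b' * Real.log (Real.log t) ^ κ

/-- **LOE** (deterministic). Large values of `σ S` outside the exceptional set.
Proof. Let `s = 1 / (2 A + 4)`, `c = s / 2`, `D` the constant of `Big` for `c'`, and `q` a natural number with `q ≥ 4 (A + 2) + 4` and
`c q ≥ 4 A + 9`. For large `N` let `t` be the time of `Big`, `t ≥ N ^ q`, `t ≤ exp (D N)`. For all `y ∈ [t, t + t ^ (-c)]` put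
`L = nf A ⌊y⌋₊`; `L ^ (A+2) ≤ ⌊y⌋ ≤ y` and `L ≥ N ^ 4` for large `N` (`⌊y⌋ ≥ t - 1 ≥ N ^ (4 (A+2))`). Then
`σ part W L y ≥ σ part W (N^4) t - |part W (N^4) y - part W (N^4) t| - |∑_{N^4 ≤ n < L} W n y| ≥ c' R a N - 3` exactly as in the proof of
LOA (finished file `Pool/Agent/H685/FP/T_LOA.lean`). The interval `[t, t + t ^ (-c)]` meets at most two of the intervals
`[k, k + 1]`, `k ≥ t - 1`, so by hypothesis the exceptional set has measure at most `2 C (t - 1) ^ (-s) < t ^ (-c)` in it for large `t`.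
So there is `y` in the interval with `y ∉ Exc`, hence (as `y ≥ 0`) `|S y - part W L y| < 1` and `σ S y ≥ c' R a N - 4`. Finally
`N ≤ t ≤ y ≤ t + 1 ≤ exp ((D + 1) N)`. -/
def P_LOE : Prop :=
  ∀ (W : ℕ → ℝ → ℝ) (S : ℝ → ℝ) (a : ℕ → ℝ) (A : ℕ) (σ C : ℝ), (σ = 1 ∨ σ = -1) → RO.Amp a →
    (∀ (n : ℕ) (t t' : ℝ), |W n t - W n t'| ≤ a n * (2 * ((n : ℝ) + 2) ^ A) * |t - t'|) → UTL A W → Big a σ W → 0 ≤ C →
    (∀ k : ℕ, 1 ≤ k → (volume : Measure ℝ) (Exc A W S ∩ Set.Icc (k : ℝ) (k + 1)) ≤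
      ENNReal.ofReal (C * (k : ℝ) ^ (-(1 / (2 * (A : ℝ) + 4))))) →
    ∀ c' : ℝ, 0 < c' → c' < 1 → ∃ D : ℝ, 1 ≤ D ∧ ∃ N₀ : ℕ, ∀ N : ℕ, N₀ ≤ N →
      ∃ t : ℝ, t ∉ Exc A W S ∧ (N : ℝ) ≤ t ∧ t ≤ Real.exp (D * N) ∧ c' * RO.R a N - 4 ≤ σ * S t

/-- **LO3** (deterministic). As `P_LO2` (finished file `Pool/Agent/H955/FP/T_LO2.lean`: edit it) with a set `E` which the times avoid.
Proof. The same. -/
def P_LO3 : Prop :=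
  ∀ (E : Set ℝ) (S : ℝ → ℝ) (a : ℕ → ℝ) (σ κ b b'' : ℝ), (∀ n, 0 ≤ a n) →
    (∀ c' : ℝ, 0 < c' → c' < 1 → ∃ D : ℝ, 1 ≤ D ∧ ∃ N₀ : ℕ, ∀ N : ℕ, N₀ ≤ N →
      ∃ t : ℝ, t ∉ E ∧ (N : ℝ) ≤ t ∧ t ≤ Real.exp (D * N) ∧ c' * RO.R a N - 4 ≤ σ * S t) →
    0 < κ → 0 ≤ b → b'' < b → (∃ᶠ N : ℕ in atTop, b * Real.log N ^ κ ≤ RO.R a N) →
    ∃ᶠ t : ℝ in atTop, t ∉ E ∧ b'' * Real.log (Real.log t) ^ κ ≤ σ * S t

/-- **FIE** (deterministic, extended reals). `RO.P_FIN` (finished file `Pool/Agent/H955/RO/T_FIN.lean`: edit it) in the variable `t`,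
along the times outside `E`: the filter is `atTop ⊓ 𝓟 Eᶜ`.
Proof. The same: `∀ᶠ t in atTop ⊓ 𝓟 Eᶜ, p t` is `∀ᶠ t in atTop, t ∉ E → p t` (`eventually_inf_principal`), and
`∃ᶠ t in atTop ⊓ 𝓟 Eᶜ, p t` is `∃ᶠ t in atTop, t ∉ E ∧ p t` (`frequently_inf_principal`, up to the order). -/
def P_FIE : Prop :=
  ∀ (E : Set ℝ) (S : ℝ → ℝ) (a : ℕ → ℝ) (κ : ℝ), (∀ n, 0 ≤ a n) → 0 < κ →
    (∀ b b' : ℝ, 0 ≤ b → b < b' → (∀ᶠ N : ℕ in atTop, RO.R a N ≤ b * Real.log N ^ κ) →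
      ∀ᶠ t : ℝ in atTop, t ∉ E → |S t| ≤ b' * Real.log (Real.log t) ^ κ) →
    (∀ σ b b'' : ℝ, (σ = 1 ∨ σ = -1) → 0 ≤ b → b'' < b → (∃ᶠ N : ℕ in atTop, b * Real.log N ^ κ ≤ RO.R a N) →
      ∃ᶠ t : ℝ in atTop, t ∉ E ∧ b'' * Real.log (Real.log t) ^ κ ≤ σ * S t) →
    ∀ c : ℝ,
      Filter.limsup (fun t : ℝ => (((c + S t) / Real.log (Real.log t) ^ κ : ℝ) : EReal)) (atTop ⊓ 𝓟 Eᶜ) = RO.Lam a κ ∧
      Filter.liminf (fun t : ℝ => (((c + S t) / Real.log (Real.log t) ^ κ : ℝ) : EReal)) (atTop ⊓ 𝓟 Eᶜ) = -RO.Lam a κ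

end Pool.Agent.H705.FP
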