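import Pool.Agent.H705.FP.Asm
import Pool.Agent.H705.FP.Stm2

/-! # Fixed phases, second part: the theorem from its parts -/

set_option autoImplicit false

namespace Pool.Agent.H705.FP

open MeasureTheory ProbabilityTheory Filter Topology Finset

/-- the final statement, with the function itself outside a sparse set -/
def Main2 : Prop :=
    (∃ (Ω : Type) (_ : MeasurableSpace Ω) (P : Measure Ω) (U : ℕ → Ω → ℝ), ModelU P U) ∧
    ∀ (Ω : Type) [MeasurableSpace Ω] (P : Measure Ω) (U : ℕ → Ω → ℝ), ModelU P U →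
      ∀ (A : ℕ) (g w : ℕ → ℝ), WinU A g w → ∀ (ι : Type) [Countable ι] (a β : ι → ℕ → ℝ), (∀ i, RO.Amp (a i)) →
        ∀ᵐ ω ∂P, ∀ i : ι, ∃ F : ℝ → ℝ,
          (∀ t : ℝ, 0 ≤ t → HasSum (fun n : ℕ => ∫ y in (0 : ℝ)..t,
            a i n * Real.cos ((g n + w n * U n ω) * y + β i n)) (F t)) ∧
          (∀ κ c₀ : ℝ, 0 < κ →
            (∀ c : ℝ, 0 < c → c * (2 * A + 4) < 1 →
              Filter.limsup (fun t : ℝ => (((c₀ + avg F c t) / Real.log (Real.log t) ^ κ : ℝ) : EReal)) atTop =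
                RO.Lam (a i) κ ∧
              Filter.liminf (fun t : ℝ => (((c₀ + avg F c t) / Real.log (Real.log t) ^ κ : ℝ) : EReal)) atTop =
                -RO.Lam (a i) κ) ∧
            ∀ S : ℝ → ℝ, (∀ t : ℝ, 0 ≤ t → IntervalIntegrable S volume 0 t ∧ ∫ y in (0 : ℝ)..t, S y = F t) →
              RO.Lam (a i) κ ≤ Filter.limsup (fun t : ℝ => (((c₀ + S t) / Real.log (Real.log t) ^ κ : ℝ) : EReal)) atTop ∧
              Filter.liminf (fun t : ℝ => (((c₀ + S t) / Real.log (Real.log t) ^ κ : ℝ) : EReal)) atTop ≤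
                -RO.Lam (a i) κ) ∧
          ∀ B : ℝ, Spc B g → ∃ (S : ℝ → ℝ) (E : Set ℝ) (C : ℝ),
            (∀ t : ℝ, 0 ≤ t → IntervalIntegrable S volume 0 t ∧ ∫ y in (0 : ℝ)..t, S y = F t) ∧
            (∀ T : ℝ, 1 ≤ T → (volume : Measure ℝ) (E ∩ Set.Icc 0 T) ≤
              ENNReal.ofReal (C * T ^ (1 - 1 / (2 * (A : ℝ) + 4)))) ∧
            ∀ κ c₀ : ℝ, 0 < κ →
              Filter.limsup (fun t : ℝ => (((c₀ + S t) / Real.log (Real.log t) ^ κ : ℝ) : EReal)) (atTop ⊓ 𝓟 Eᶜ) =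
                RO.Lam (a i) κ ∧
              Filter.liminf (fun t : ℝ => (((c₀ + S t) / Real.log (Real.log t) ^ κ : ℝ) : EReal)) (atTop ⊓ 𝓟 Eᶜ) =
                -RO.Lam (a i) κ

theorem xt_eq (S : ℝ → ℝ) (c κ t : ℝ) :
    (((Real.sqrt (Real.exp t) * (c + S (Real.log (Real.exp t)))) /
      (Real.sqrt (Real.exp t) * Real.log (Real.log (Real.log (Real.exp t))) ^ κ) : ℝ) : EReal) =
      (((c + S t) / Real.log (Real.log t) ^ κ : ℝ) : EReal) := by
  have h : Real.sqrt (Real.exp t) ≠ 0 := (Real.sqrt_pos.mpr (Real.exp_pos t)).ne'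
  rw [Real.log_exp, mul_div_mul_left _ _ h]

theorem xt_limsup (S : ℝ → ℝ) (c κ : ℝ) :
    Filter.limsup (fun x : ℝ => (((Real.sqrt x * (c + S (Real.log x))) /
      (Real.sqrt x * Real.log (Real.log (Real.log x)) ^ κ) : ℝ) : EReal)) atTop =
      Filter.limsup (fun t : ℝ => (((c + S t) / Real.log (Real.log t) ^ κ : ℝ) : EReal)) atTop := by
  have h1 : Filter.limsup (fun x : ℝ => (((Real.sqrt x * (c + S (Real.log x))) /
      (Real.sqrt x * Real.log (Real.log (Real.log x)) ^ κ) : ℝ) : EReal)) (map Real.exp atTop) =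
      Filter.limsup (fun t : ℝ => (((c + S t) / Real.log (Real.log t) ^ κ : ℝ) : EReal)) atTop := by
    rw [← Filter.limsup_comp]
    congr 1
    funext t
    exact xt_eq S c κ t
  rwa [Real.map_exp_atTop] at h1

theorem xt_liminf (S : ℝ → ℝ) (c κ : ℝ) :
    Filter.liminf (fun x : ℝ => (((Real.sqrt x * (c + S (Real.log x))) /
      (Real.sqrt x * Real.log (Real.log (Real.log x)) ^ κ) : ℝ) : EReal)) atTop =
      Filter.liminf (fun t : ℝ => (((c + S t) / Real.log (Real.log t) ^ κ : ℝ) : EReal)) atTop := by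
  have h1 : Filter.liminf (fun x : ℝ => (((Real.sqrt x * (c + S (Real.log x))) /
      (Real.sqrt x * Real.log (Real.log (Real.log x)) ^ κ) : ℝ) : EReal)) (map Real.exp atTop) =
      Filter.liminf (fun t : ℝ => (((c + S t) / Real.log (Real.log t) ^ κ : ℝ) : EReal)) atTop := by
    rw [← Filter.liminf_comp]
    congr 1
    funext t
    exact xt_eq S c κ t
  rwa [Real.map_exp_atTop] at h1

theorem main2_of (hMOU : P_MOU) (hSEP : P_SEP) (hBIG : P_BIG) (hWAV : P_WAV) (hUTA : P_UTA) (hPRI : P_PRI)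
    (hUPA : P_UPA) (hLOA : P_LOA) (hLO2 : P_LO2) (hSUP : P_SUP) (hFI3 : P_FI3) (hFIN : RO.P_FIN)
    (hCNT : P_CNT) (hL2B : P_L2B) (hTLA : P_TLA) (hEXS : P_EXS) (hMEA : P_MEA) (hUPE : P_UPE) (hLOE : P_LOE)
    (hLO3 : P_LO3) (hFIE : P_FIE) : Main2 := by
  refine ⟨hMOU.1, ?_⟩
  intro Ω _ P U hU A g w hw ι _ a β ha
  rw [ae_all_iff]
  intro i
  filter_upwards [hMOU.2 Ω P U hU, hSEP Ω P U hU A g w hw, hUTA Ω P U hU (a i) (β i) g w A (ha i) hw]
    with ω h1 h2 h3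
  obtain ⟨v1, v2, v3, v4, v5⟩ := hWAV A g w (fun n => U n ω) (a i) (β i) hw h1 (ha i).1
  obtain ⟨F, hF⟩ := hPRI (a i) (β i) (om g w fun n => U n ω) (ha i) v1
  have hbig : ∀ σ : ℝ, (σ = 1 ∨ σ = -1) → Big (a i) σ (wv (a i) (β i) (om g w fun n => U n ω)) :=
    fun σ hσ => hBIG _ h2 (a i) (β i) (ha i) σ hσ
  have hU' : ∀ c κ b b' : ℝ, 0 < c → c * (2 * A + 4) < 1 → 0 < κ → 0 ≤ b → b < b' →
      (∀ᶠ N : ℕ in atTop, RO.R (a i) N ≤ b * Real.log N ^ κ) →
      ∀ᶠ t : ℝ in atTop, |avg F c t| ≤ b' * Real.log (Real.log t) ^ κ :=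
    fun c κ b b' hc hc2 hκ hb hbb hR =>
      hUPA _ F (a i) A κ b b' c v2 (ha i).1 h3 v5 hF hc hc2 hκ hb hbb hR
  have hL' : ∀ c κ : ℝ, 0 < c → c * (2 * A + 4) < 1 → 0 < κ →
      ∀ σ b b'' : ℝ, (σ = 1 ∨ σ = -1) → 0 ≤ b → b'' < b →
      (∃ᶠ N : ℕ in atTop, b * Real.log N ^ κ ≤ RO.R (a i) N) →
      ∃ᶠ t : ℝ in atTop, b'' * Real.log (Real.log t) ^ κ ≤ σ * avg F c t := by
    intro c κ hc hc2 hκ σ b b'' hσ hb hbb hR
    exact hLO2 (avg F c) (a i) σ κ b b'' (ha i).1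
      (hLOA _ F (a i) A σ c hσ v2 (ha i) v4 h3 hF (hbig σ hσ) hc hc2) hκ hb hbb hR
  refine ⟨F, ?_, ?_, ?_⟩
  · intro t ht
    exact hF.1 t ht
  · intro κ c₀ hκ
    refine ⟨?_, ?_⟩
    · intro c hc hc2
      have h := hFIN (avg F c) (a i) κ (ha i).1 hκ (fun b b' hb hbb hR => hU' c κ b b' hc hc2 hκ hb hbb hR)
        (hL' c κ hc hc2 hκ) c₀
      rw [xt_limsup, xt_liminf] at h
      exact h
    · intro S hS
      obtain ⟨c, hc, hc2⟩ : ∃ c : ℝ, 0 < c ∧ c * (2 * A + 4) < 1 := by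
        refine ⟨1 / (4 * A + 8), by positivity, ?_⟩
        have h0 : (0 : ℝ) < 4 * A + 8 := by positivity
        rw [div_mul_eq_mul_div, div_lt_one h0]
        have : (0 : ℝ) ≤ A := Nat.cast_nonneg _
        linarith
      have h := hFI3 S (a i) κ (ha i).1 hκ ?_ c₀
      · rw [xt_limsup, xt_liminf] at h
        exact h
      · intro σ b b'' hσ hb hbb hR
        by_contra hcon
        rw [Filter.not_frequently] at hcon
        have h4 : ∀ᶠ y : ℝ in atTop, σ * S y ≤ b'' * Real.log (Real.log y) ^ κ := by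
          filter_upwards [hcon] with y hy
          exact (not_le.mp hy).le
        obtain ⟨b₁, hb1, hb1'⟩ := exists_between hbb
        obtain ⟨b₂, hb2, hb2'⟩ := exists_between hb1'
        have h5 := hSUP S F σ κ b'' b₁ c hσ hκ hb1 hc hS h4
        have h6 := hL' c κ hc hc2 hκ σ b b₂ hσ hb hb2' hR
        obtain ⟨t, ht1, ht2, ht3⟩ := (h6.and_eventually (h5.and loglog_pos)).exists
        have h7 : 0 < Real.log (Real.log t) ^ κ := Real.rpow_pos_of_pos ht3 κ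
        nlinarith [mul_lt_mul_of_pos_right hb2 h7]
  · intro B hB
    obtain ⟨C, hC, hcnt⟩ := hCNT A B g w hw hB
    have hγ : ∀ n, 0 ≤ om g w (fun n => U n ω) n := fun n => (Real.sqrt_nonneg _).trans (v1 n)
    have hmsb : MSB (wv (a i) (β i) (om g w fun n => U n ω)) := by
      intro m
      obtain ⟨C₂, hC₂, htla⟩ := hTLA (a i) (ha i) m
      refine ⟨2 * C * C₂, by positivity, fun T N M hN hNM => ?_⟩
      refine (hL2B (a i) (β i) _ C (ha i).1 hγ hC (hcnt (fun n => U n ω) h1) T N M).trans ?_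
      rw [mul_assoc (2 * C)]
      exact mul_le_mul_of_nonneg_left (htla N M hN hNM) (by positivity)
    obtain ⟨S, hS⟩ := hEXS _ v2 hmsb
    obtain ⟨C₃, hC₃, hm1, hm2⟩ := hMEA A _ S hS
    have hSF : ∀ t : ℝ, 0 ≤ t → IntervalIntegrable S volume 0 t ∧ ∫ y in (0 : ℝ)..t, S y = F t := by
      intro t ht
      refine ⟨(hS.2.1 t ht).1, ?_⟩
      refine tendsto_nhds_unique (hS.2.1 t ht).2 ?_
      have h := (hF.1 t ht).tendsto_sum_nat
      refine h.congr fun N => ?_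
      unfold RO.part
      rw [intervalIntegral.integral_finsetSum]
      intro n _
      exact (v2 n).intervalIntegrable _ _
    refine ⟨S, Exc A (wv (a i) (β i) (om g w fun n => U n ω)) S, C₃, hSF, hm1, fun κ c₀ hκ => ?_⟩
    refine hFIE _ S (a i) κ (ha i).1 hκ ?_ ?_ c₀
    · intro b b' hb hbb hR
      exact hUPE _ S (a i) A κ b b' (ha i).1 h3 v5 hκ hb hbb hR
    · intro σ b b'' hσ hb hbb hR
      exact hLO3 _ S (a i) σ κ b b'' (ha i).1
        (hLOE _ S (a i) A σ C₃ hσ (ha i) v4 h3 (hbig σ hσ) hC₃ hm2) hκ hb hbb hR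

end Pool.Agent.H705.FP
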