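import Pool.Agent.H705.RO.Asm

/-! # Sums over zeros with random ordinates and FIXED phases: definitions

The ordinate `γ n = g n + w n u n` is independently and uniformly distributed on the short window `[g n, g n + w n]`; the
phases `β n` and the amplitudes `a n` are fixed numbers. -/

set_option autoImplicit false

namespace Pool.Agent.H705.FP

open MeasureTheory ProbabilityTheory Filter Topology Finset

/-- `U 0, U 1, …` are independent and uniformly distributed on `[0, 1]` -/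
structure ModelU {Ω : Type} [MeasurableSpace Ω] (P : Measure Ω) (U : ℕ → Ω → ℝ) : Prop where
  prob : IsProbabilityMeasure P
  meas : ∀ n, Measurable (U n)
  indep : iIndepFun U P
  law : ∀ n, P.map (U n) = (volume : Measure ℝ).restrict (Set.Icc (0 : ℝ) 1)

/-- the windows `[g n, g n + w n]`: the lower ends are at least `√(n + 2)` and at most `(n + 2) ^ A`, the lengths are at most
`1` and at least `(n + 2) ^ (-A)` -/
def WinU (A : ℕ) (g w : ℕ → ℝ) : Prop :=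
  ∀ n : ℕ, Real.sqrt ((n : ℝ) + 2) ≤ g n ∧ g n ≤ ((n : ℝ) + 2) ^ A ∧ 1 / ((n : ℝ) + 2) ^ A ≤ w n ∧ w n ≤ 1

/-- the ordinates -/
noncomputable def om (g w : ℕ → ℝ) (x : ℕ → ℝ) (n : ℕ) : ℝ := g n + w n * x n

/-- the `n`-th wave with frequency `γ n` -/
noncomputable def wv (a β γ : ℕ → ℝ) (n : ℕ) (t : ℝ) : ℝ := a n * Real.cos (γ n * t + β n)

/-- separation: for the vectors `k` of integers with `|k n| ≤ K`, `s ∈ {-1, 0, 1}` and the indices `N ≤ m < N ^ 4` the linear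
form `∑_{n<N} k n γ n + s γ m` is at least `exp (-D N)` in absolute value, unless all coefficients are zero -/
def Sep (γ : ℕ → ℝ) (K : ℕ) (D : ℝ) (N : ℕ) : Prop :=
  ∀ k : ℕ → ℤ, (∀ n, |k n| ≤ (K : ℤ)) → ∀ s : ℤ, |s| ≤ 1 → ∀ m : ℕ, N ≤ m → m < N ^ 4 →
    ((∃ n < N, k n ≠ 0) ∨ s ≠ 0) →
    Real.exp (-(D * N)) ≤ |∑ n ∈ range N, (k n : ℝ) * γ n + (s : ℝ) * γ m|

/-- the bounds for blocks below the height `t ^ (1 / (A + 2))` -/
def UTL (A : ℕ) (W : ℕ → ℝ → ℝ) : Prop :=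
  ∀ m : ℕ, ∃ K : ℝ, 0 ≤ K ∧ ∀ J k : ℕ, ∀ t : ℝ, 0 ≤ t → t ≤ 2 ^ k → ∀ M M' : ℕ, 2 ^ J ≤ M → M ≤ M' →
    (M' : ℝ) ^ (A + 2) ≤ t →
    |∑ n ∈ Ico M M', W n t| ≤ K * (2 : ℝ) ^ (-(RO.pe m * J / 2)) * Real.sqrt ((J : ℝ) + k + 1)

/-- the large values: for every `c < 1` there is `D` such that for all large `N` there is a time `t`,
`N ^ q ≤ t ≤ exp (D N)`, at which `σ` times the sum of the first `N ^ 4` waves is at least `c R a N - 1` -/
def Big (a : ℕ → ℝ) (σ : ℝ) (W : ℕ → ℝ → ℝ) : Prop :=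
  ∀ c : ℝ, 0 < c → c < 1 → ∃ D : ℝ, 1 ≤ D ∧ ∀ q : ℕ, ∃ N₀ : ℕ, ∀ N : ℕ, N₀ ≤ N →
    ∃ t : ℝ, (N : ℝ) ^ q ≤ t ∧ t ≤ Real.exp (D * N) ∧ c * RO.R a N - 1 ≤ σ * RO.part W (N ^ 4) t

/-- the local average of the series over `[t, t + t ^ (-c)]`, in terms of its primitive `F` -/
noncomputable def avg (F : ℝ → ℝ) (c t : ℝ) : ℝ := t ^ c * (F (t + t ^ (-c)) - F t)

end Pool.Agent.H705.FP
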