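import Pool.Agent.H705.FP.Asm
import Pool.Agent.H340.FP.T_ONE
import Pool.Agent.H878.FP.T_LIN
import Pool.Agent.H948.FP.T_SEP
import Pool.Agent.H349.FP.T_FEJ
import Pool.Agent.H642.FP.T_AVE
import Pool.Agent.H299.FP.T_KRO
import Pool.Agent.H806.FP.T_BIG
import Pool.Agent.H722.FP.T_HOU
import Pool.Agent.H980.FP.T_EVU
import Pool.Agent.H46.FP.T_BLU
import Pool.Agent.H199.FP.T_MOU
import Pool.Agent.H52.FP.T_WAV
import Pool.Agent.H92.FP.T_UTA
import Pool.Agent.H457.FP.T_AMS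
import Pool.Agent.H252.FP.T_PRI
import Pool.Agent.H117.FP.T_UPA
import Pool.Agent.H685.FP.T_LOA
import Pool.Agent.H955.FP.T_LO2
import Pool.Agent.H113.FP.T_SUP
import Pool.Agent.H364.FP.T_FI3
import Pool.Agent.H955.RO.T_FIN
import Pool.Agent.H230.RO.T_SUM

/-! # Sums over zeros with random ordinates and fixed phases: the theorem

The parts were proved by helpers 340, 878, 948, 349, 642, 299, 806, 722, 980, 46, 199, 52, 92, 457, 252, 117, 685, 955, 113, 364 and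
230. -/

set_option autoImplicit false

namespace Pool.Agent.H705.FP

theorem main : Main :=
  have hFEJ : P_FEJ := Pool.Agent.H349.FP.T_FEJ
  have hMOU : P_MOU := Pool.Agent.H199.FP.T_MOU
  have hWAV : P_WAV := Pool.Agent.H52.FP.T_WAV
  main_of hMOU (Pool.Agent.H948.FP.T_SEP (Pool.Agent.H878.FP.T_LIN Pool.Agent.H340.FP.T_ONE))
    (Pool.Agent.H806.FP.T_BIG (Pool.Agent.H642.FP.T_AVE hFEJ) (Pool.Agent.H299.FP.T_KRO hFEJ)) hWAV
    (Pool.Agent.H92.FP.T_UTA (Pool.Agent.H980.FP.T_EVU Pool.Agent.H722.FP.HOU.T_HOU) Pool.Agent.H46.FP.T_BLU hMOU hWAV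
      Pool.Agent.H230.RO.T_SUM)
    (Pool.Agent.H252.FP.T_PRI Pool.Agent.H457.FP.T_AMS) Pool.Agent.H117.FP.T_UPA Pool.Agent.H685.FP.LOA.T_LOA
    Pool.Agent.H955.FP.T_LO2 Pool.Agent.H113.FP.SUP.T_SUP Pool.Agent.H364.FP.T_FI3 Pool.Agent.H955.RO.T_FIN

end Pool.Agent.H705.FP
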