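import Pool.Agent.H705.FP.Asm2
import Pool.Agent.H705.FP.Fin
import Pool.Agent.H880.FP.T_TRI
import Pool.Agent.H235.FP.T_CNT
import Pool.Agent.H176.FP.T_L2B
import Pool.Agent.H94.FP.T_TLA
import Pool.Agent.H440.FP.T_EXS
import Pool.Agent.H345.FP.T_MEA
import Pool.Agent.H947.FP.T_UPE
import Pool.Agent.H164.FP.T_LOE
import Pool.Agent.H44.FP.T_LO3
import Pool.Agent.H668.FP.T_FIE

/-! # Sums over zeros with random ordinates and fixed phases: the theorem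

The parts of the second half were proved by helpers 880, 235, 176, 94, 440, 345, 947, 164, 44 and 668. -/

set_option autoImplicit false

namespace Pool.Agent.H705.FP

theorem main2 : Main2 :=
  have hFEJ : P_FEJ := Pool.Agent.H349.FP.T_FEJ
  have hMOU : P_MOU := Pool.Agent.H199.FP.T_MOU
  have hWAV : P_WAV := Pool.Agent.H52.FP.T_WAV
  main2_of hMOU (Pool.Agent.H948.FP.T_SEP (Pool.Agent.H878.FP.T_LIN Pool.Agent.H340.FP.T_ONE))
    (Pool.Agent.H806.FP.T_BIG (Pool.Agent.H642.FP.T_AVE hFEJ) (Pool.Agent.H299.FP.T_KRO hFEJ)) hWAV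
    (Pool.Agent.H92.FP.T_UTA (Pool.Agent.H980.FP.T_EVU Pool.Agent.H722.FP.HOU.T_HOU) Pool.Agent.H46.FP.T_BLU hMOU hWAV
      Pool.Agent.H230.RO.T_SUM)
    (Pool.Agent.H252.FP.T_PRI Pool.Agent.H457.FP.T_AMS) Pool.Agent.H117.FP.T_UPA Pool.Agent.H685.FP.LOA.T_LOA
    Pool.Agent.H955.FP.T_LO2 Pool.Agent.H113.FP.SUP.T_SUP Pool.Agent.H364.FP.T_FI3 Pool.Agent.H955.RO.T_FIN
    Pool.Agent.H235.FP.T_CNT (Pool.Agent.H176.FP.T_L2B Pool.Agent.H880.FP.TRI.T_TRI) Pool.Agent.H94.FP.T_TLA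
    Pool.Agent.H440.FP.T_EXS Pool.Agent.H345.FP.T_MEA Pool.Agent.H947.FP.T_UPE Pool.Agent.H164.FP.LOE.T_LOE
    Pool.Agent.H44.FP.T_LO3 Pool.Agent.H668.FP.T_FIE

end Pool.Agent.H705.FP
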