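import Pool.Agent.H705.FP.Defs

/-! # Sums over zeros with random ordinates and FIXED phases: the parts of the proof

Every `P_X` is one part; its docstring is a complete paper proof. `RO.R`, `RO.part`, `RO.pe`, `RO.Amp`, `RO.P_SUM`, `RO.P_FIN` are in
`Pool.Agent.H705.RO.Defs` and `Pool.Agent.H705.RO.Stm`. -/

set_option autoImplicit false

namespace Pool.Agent.H705.FP

open MeasureTheory ProbabilityTheory Filter Topology Finset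

/-- **ONE.** `Y`, `V` independent, `V` uniform on `[0, 1]`: `|Y + l V| < η` with probability at most `2 η / |l|`.
Proof. For every real `y` the set of the `v` with `|y + l v| < η` is an interval of length `2 η / |l|`
(`{v | |y + l v| < η} = Ioo` of `(-y ± η) / l`, or `Real.volume_preimage_mul_left`). The law of `(Y, V)` is the product of the
laws (`indepFun_iff_map_prod_eq_prod_map_map`), and `Measure.prod_apply` with `P.map Y` a probability measure gives the bound. -/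
def P_ONE : Prop :=
  ∀ (Ω : Type) [MeasurableSpace Ω] (P : Measure Ω) [IsProbabilityMeasure P] (Y V : Ω → ℝ), Measurable Y → Measurable V →
    IndepFun Y V P → P.map V = (volume : Measure ℝ).restrict (Set.Icc (0 : ℝ) 1) → ∀ l η : ℝ, l ≠ 0 → 0 ≤ η →
      P {ω | |Y ω + l * V ω| < η} ≤ ENNReal.ofReal (2 * η / |l|)

/-- **LIN.** A linear form with integer coefficients, not all zero, in the first `N` ordinates and one ordinate of index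
`N ≤ m < N ^ 4` is less than `η` in absolute value with probability at most `2 η (N ^ 4 + 2) ^ A`.
Proof. Let `j` be an index with nonzero coefficient: `j = m` if `s ≠ 0`, otherwise `j < N` with `k j ≠ 0`; let `q` be the
coefficient, `|q| ≥ 1`. The form is `Y + l U_j` with `l = q w_j`, `Y` = everything else, a function of the other `U n`; `Y` and
`U j` are independent (`iIndepFun.indepFun_finset` with the index sets `(insert m (range N)).erase j` and `{j}`).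
`|l| ≥ w_j ≥ (j + 2) ^ (-A) ≥ (N ^ 4 + 2) ^ (-A)` (`j < N ^ 4`). Use ONE. -/
def P_LIN : Prop :=
  ∀ (Ω : Type) [MeasurableSpace Ω] (P : Measure Ω) (U : ℕ → Ω → ℝ), ModelU P U →
    ∀ (A : ℕ) (g w : ℕ → ℝ), WinU A g w → ∀ (N : ℕ) (k : ℕ → ℤ) (s : ℤ) (m : ℕ), N ≤ m → m < N ^ 4 →
      ((∃ n < N, k n ≠ 0) ∨ s ≠ 0) → ∀ η : ℝ, 0 ≤ η →
      P {ω | |∑ n ∈ range N, (k n : ℝ) * om g w (fun n => U n ω) n + (s : ℝ) * om g w (fun n => U n ω) m| < η} ≤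
        ENNReal.ofReal (2 * η * ((N : ℝ) ^ 4 + 2) ^ A)

/-- **SEP.** Almost surely for every `K` the separation `Sep` holds with `D = 2 K + 3` for all large `N`.
Proof. Countably many `K`; fix `K`. `Sep` fails for `N` only if for some `(k 0, …, k (N-1)) ∈ {-K, …, K} ^ N`, `s ∈ {-1, 0, 1}`,
`N ≤ m < N ^ 4`, not all coefficients zero, the form is less than `η = exp (-(2 K + 3) N)`. These are at most
`(2 K + 1) ^ N · 3 · N ^ 4` forms (`Fintype.piFinset (fun _ : Fin N => Icc (-K) K)`; extend a function on `Fin N` by zero to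
`ℕ → ℤ`), each of probability at most `2 η (N ^ 4 + 2) ^ A` by LIN; as `(2 K + 1) ^ N ≤ exp (2 K N)` the sum is at most
`6 N ^ 4 (N ^ 4 + 2) ^ A exp (-3 N)`, which is summable in `N`. Borel–Cantelli (`measure_limsup_atTop_eq_zero` or
`ae_eventually_notMem`). -/
def P_SEP : Prop :=
  ∀ (Ω : Type) [MeasurableSpace Ω] (P : Measure Ω) (U : ℕ → Ω → ℝ), ModelU P U →
    ∀ (A : ℕ) (g w : ℕ → ℝ), WinU A g w →
      ∀ᵐ ω ∂P, ∀ K : ℕ, ∃ N₀ : ℕ, ∀ N : ℕ, N₀ ≤ N → Sep (om g w fun n => U n ω) K (2 * K + 3) N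

/-- the Fejér kernel of degree `K` -/
noncomputable def fej (K : ℕ) (θ : ℝ) : ℝ :=
  ∑ k ∈ Finset.Icc (-(K : ℤ)) K, (1 - |(k : ℝ)| / (K + 1)) * Real.cos (k * θ)

/-- **FEJ.** The Fejér kernel is nonnegative, and equals its complex form.
Proof. Second part: `exp (k θ I) + exp (-k θ I) = 2 cos (k θ)` (the weights are even; or: the imaginary part of the right side
changes sign under `k ↦ -k`). First part: `(K + 1) ∑_{|k| ≤ K} (1 - |k| / (K+1)) exp (k θ I) = |∑_{j=0}^{K} exp (j θ I)| ^ 2`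
(there are `K + 1 - |k|` pairs `(i, j)`, `0 ≤ i, j ≤ K`, with `i - j = k`), or by induction on `K`. -/
def P_FEJ : Prop :=
  ∀ (K : ℕ) (θ : ℝ), 0 ≤ fej K θ ∧
    ((fej K θ : ℝ) : ℂ) =
      ∑ k ∈ Finset.Icc (-(K : ℤ)) K, ((1 - |(k : ℝ)| / (K + 1) : ℝ) : ℂ) * Complex.exp ((k : ℂ) * (θ : ℂ) * Complex.I)

/-- **AVE** (deterministic). Let `K ≥ 1`, `N < M`, suppose that all the linear forms with coefficients `|k n| ≤ K + 1`, `n < N`, and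
`s ∈ {-1,0,1}` at `m`, `N ≤ m < M`, not all zero, are at least `η > 0` in absolute value, and let `H > 0`,
`E = (2 K + 1) ^ N · 2 / (H η)`, `G t = ∏_{n<N} fej K (γ n t + β n)`. The averages over `[H, 2 H]` of `G`, of
`G cos (γ m t + β m)` for `m < N` and of the same for `N ≤ m < M` differ from `1`, `K / (K + 1)` and `0` by at most `E`.
Proof. Let `θ n = γ n t + β n`, `c_k = 1 - |k| / (K+1) ∈ [0, 1]`. By FEJ and `Finset.prod_univ_sum` (or `Finset.prod_sum`)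
`G t = ∑_{k ∈ {-K..K}^N} ∏ c_{k n} exp (I ∑_{n<N} k n θ n)`. For real `λ ≠ 0`: `|∫_H^{2H} exp (I (λ t + ρ)) dt| ≤ 2 / |λ|`. The term
`k = 0` has average `1` and each other one has average at most `2 / (H η)` in absolute value, there are at most `(2 K + 1) ^ N`
terms. Next `cos (θ m) = (exp (I θ m) + exp (-I θ m)) / 2`, so `G cos (θ m)` is `1/2` times the sum over `k` and over the sign `±` of
`∏ c_{k n} exp (I (∑ k n θ n ± θ m))`; for `m < N` the vector `k ± e_m` is zero exactly for `k = ∓ e_m`, which gives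
`1/2 (c_1 + c_{-1}) = K / (K + 1)`; all the other vectors have entries at most `K + 1` and are nonzero (use `s = 0` and any `m'`,
for instance `m' = N`); for `m ≥ N` use `s = ± 1`. -/
def P_AVE : Prop :=
  ∀ (γ β : ℕ → ℝ) (K N M : ℕ) (η H : ℝ), 1 ≤ K → N < M → 0 < η → 0 < H →
    (∀ k : ℕ → ℤ, (∀ n, |k n| ≤ (K : ℤ) + 1) → ∀ s : ℤ, |s| ≤ 1 → ∀ m : ℕ, N ≤ m → m < M →
      ((∃ n < N, k n ≠ 0) ∨ s ≠ 0) → η ≤ |∑ n ∈ range N, (k n : ℝ) * γ n + (s : ℝ) * γ m|) →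
    |(1 / H) * (∫ t in H..2 * H, ∏ n ∈ range N, fej K (γ n * t + β n)) - 1| ≤ (2 * K + 1) ^ N * 2 / (H * η) ∧
    (∀ m < N, |(1 / H) * (∫ t in H..2 * H, Real.cos (γ m * t + β m) * ∏ n ∈ range N, fej K (γ n * t + β n)) -
      K / (K + 1)| ≤ (2 * K + 1) ^ N * 2 / (H * η)) ∧
    (∀ m : ℕ, N ≤ m → m < M →
      |(1 / H) * (∫ t in H..2 * H, Real.cos (γ m * t + β m) * ∏ n ∈ range N, fej K (γ n * t + β n))| ≤
        (2 * K + 1) ^ N * 2 / (H * η))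

/-- **KRO** (deterministic). If averages as in AVE hold with a number `E ≤ 1/2` then at some `t ∈ [H, 2 H]` the sum of the first
`M` waves is at least `K / (K+1) · R a N - 3 E · R a M`.
Proof. `G ≥ 0` (FEJ), continuous; `I = (1/H) ∫ G`, `J = (1/H) ∫ (∑_{m<M} a m cos (γ m t + β m)) G`. `|I - 1| ≤ E`,
`|J - K/(K+1) R a N| ≤ E R a M` (`a m ≥ 0`). Suppose that the sum is `< B := K/(K+1) R a N - 3 E R a M` for all
`t ∈ [H, 2 H]`; then `J ≤ B I`. Put `f = K/(K+1) R a N ≤ R a M =: R`. Case `B ≥ 0`: `f - E R ≤ J ≤ B I ≤ (f - 3 E R)(1 + E) ≤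
f + E f - 3 E R ≤ f - 2 E R`, so `E R ≤ 0`, i.e. `E R = 0`, and all inequalities are equalities; to avoid this case distinguish:
it suffices to find `t` with sum `≥ B - ε` for every `ε > 0` and use that the continuous sum attains its maximum `S*` on
`[H, 2 H]`: `J ≤ S* I`, so if `S* ≥ 0` then `S* ≥ J / (1 + E) ≥ J - E |J| ≥ f - E R - 2 E R`, and if `S* < 0` then
`J < 0`, `S* ≥ J / (1 - E) ≥ 2 J ≥ 2 (f - E R) ≥ f - 3 E R` (here `f - E R ≤ J < 0` was used: `2 (f - E R) = f - 2 E R + f`). -/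
def P_KRO : Prop :=
  ∀ (γ β a : ℕ → ℝ) (K N M : ℕ) (H E : ℝ), 1 ≤ K → N < M → (∀ n, 0 ≤ a n) → 0 < H → 0 ≤ E → E ≤ 1 / 2 →
    |(1 / H) * (∫ t in H..2 * H, ∏ n ∈ range N, fej K (γ n * t + β n)) - 1| ≤ E →
    (∀ m < N, |(1 / H) * (∫ t in H..2 * H, Real.cos (γ m * t + β m) * ∏ n ∈ range N, fej K (γ n * t + β n)) -
      K / (K + 1)| ≤ E) →
    (∀ m : ℕ, N ≤ m → m < M →
      |(1 / H) * (∫ t in H..2 * H, Real.cos (γ m * t + β m) * ∏ n ∈ range N, fej K (γ n * t + β n))| ≤ E) →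
    ∃ t : ℝ, H ≤ t ∧ t ≤ 2 * H ∧ K / (K + 1) * RO.R a N - 3 * E * RO.R a M ≤ RO.part (wv a β γ) M t

/-- **BIG** (deterministic). If `γ` is separated as in SEP then `Big` holds for all amplitudes, phases and signs.
Proof. Given `0 < c < 1` let `K ≥ 1` with `K / (K + 1) ≥ c`. By hypothesis for `K + 1` (and `D' = 2 (K + 1) + 3 = 2 K + 5`) for all
large `N` the forms with coefficients at most `K + 1` are at least `η = exp (-D' N)`. Let `H = exp ((D' + 2 K + 4) N)`, `M = N ^ 4`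
(`N < M` for `N ≥ 2`), `E = (2 K + 1) ^ N · 2 / (H η) ≤ 2 exp (-4 N)` (`2 K + 1 ≤ exp (2 K)`). By `RO.Amp a` (with `ε = 1/2`) there is `C`
with `a n ^ 2 ≤ C` for `n ≥ 1`, so `RO.R a M ≤ a 0 + √C M`, and `3 E R a (N^4) ≤ 1`, `E ≤ 1/2` for large `N`. AVE and KRO give
`t ∈ [H, 2 H]` with `c R a N - 1 ≤ part W (N^4) t`. `t ≥ H ≥ exp (4 N) ≥ N ^ q` for large `N`, `t ≤ 2 H ≤ exp (D N)` with
`D = D' + 2 K + 5`. For `σ = -1` apply this to the phases `β n + π`: `cos (x + π) = - cos x`. -/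
def P_BIG : Prop :=
  ∀ γ : ℕ → ℝ, (∀ K : ℕ, ∃ N₀ : ℕ, ∀ N : ℕ, N₀ ≤ N → Sep γ K (2 * K + 3) N) →
    ∀ a β : ℕ → ℝ, RO.Amp a → ∀ σ : ℝ, (σ = 1 ∨ σ = -1) → Big a σ (wv a β γ)

/-- **HOU** (Hoeffding). At a time `t > 0` the sum of the waves with `M ≤ n < M'` exceeds `lam` plus the sum of the bounds
`2 a n / (w n t)` for the mean values with probability at most `2 exp (-lam ^ 2 / (2 v))`, if `∑ a n ^ 2 ≤ v`.
Proof. The waves at time `t` are independent (functions of the `U n`), the `n`-th has values in `[-a n, a n]` and mean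
`a n ∫_0^1 cos ((g n + w n u) t + β n) du = a n (sin ((g n + w n) t + β n) - sin (g n t + β n)) / (w n t)`, at most
`2 a n / (w n t)` in absolute value. The centred waves are sub-Gaussian with parameter `a n ^ 2`
(`hasSubgaussianMGF_of_mem_Icc` gives it for `Z - E Z`). The rest is the proof of `RO.P_HOE`, which is in the finished file
`Pool/Agent/H25/RO/T_HOE.lean` on main (random phases): edit it. -/
def P_HOU : Prop :=
  ∀ (Ω : Type) [MeasurableSpace Ω] (P : Measure Ω) (U : ℕ → Ω → ℝ), ModelU P U →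
    ∀ (a β g w : ℕ → ℝ), (∀ n, 0 ≤ a n) → (∀ n, 0 < w n) → ∀ (t : ℝ) (M M' : ℕ) (lam v : ℝ), 0 < t → 0 < lam → 0 < v →
      ∑ n ∈ Ico M M', a n ^ 2 ≤ v →
      P {ω | lam + ∑ n ∈ Ico M M', 2 * a n / (w n * t) ≤
          |∑ n ∈ Ico M M', wv a β (om g w fun n => U n ω) n t|} ≤
        ENNReal.ofReal (2 * Real.exp (-(lam ^ 2 / (2 * v))))

/-- **EVU.** As `RO.P_EV`, but only the points `t = i / 2 ^ ((A+4) j)` of the grid with `t ≥ 2 ^ ((A+2) j)`, i.e.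
`i ≥ 2 ^ ((2 A + 6) j)`, and with the constant `√(2 C (A + 8)) + 2 √C 4 ^ A`.
Proof. The proof of `RO.P_EV` (finished file `Pool/Agent/H383/RO/T_EV.lean` on main: edit it) with HOU in place of HOE. The sum of
the bounds for the means: for `2 ^ j ≤ n < M ≤ 2 ^ (j+1)` one has `a n ≤ √C`, `1 / w n ≤ (n+2)^A ≤ 4 ^ A 2 ^ (A j)`
(`n + 2 ≤ 2 ^ (j+2)`), `t ≥ 2 ^ ((A+2) j)`, at most `2 ^ j` values of `n`; total at most `2 √C 4 ^ A 2 ^ (-j) ≤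
2 √C 4 ^ A 2 ^ (-(p j / 2)) √(j + k)` for `j + k ≥ 1`. -/
def P_EVU : Prop :=
  ∀ (Ω : Type) [MeasurableSpace Ω] (P : Measure Ω) (U : ℕ → Ω → ℝ), ModelU P U →
    ∀ (a β g w : ℕ → ℝ) (A : ℕ) (p C : ℝ), (∀ n, 0 ≤ a n) → WinU A g w → 0 < p → p ≤ 1 → 0 < C →
      (∀ j M : ℕ, 2 ^ j ≤ M → ∑ n ∈ Ico (2 ^ j) M, a n ^ 2 ≤ C * (2 : ℝ) ^ (-(p * j))) →
      ∀ᵐ ω ∂P, ∃ K₀ : ℕ, ∀ j k : ℕ, K₀ ≤ j + k → ∀ i M : ℕ, i ≤ 2 ^ (k + (A + 4) * j) → 2 ^ ((2 * A + 6) * j) ≤ i →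
        2 ^ j ≤ M → M ≤ 2 ^ (j + 1) →
        |∑ n ∈ Ico (2 ^ j) M, wv a β (om g w fun n => U n ω) n ((i : ℝ) / 2 ^ ((A + 4) * j))| ≤
          (Real.sqrt (2 * C * (A + 8)) + 2 * Real.sqrt C * 4 ^ A) * (2 : ℝ) ^ (-(p * j / 2)) * Real.sqrt ((j : ℝ) + k)

/-- **BLU** (deterministic). As `RO.P_BLK` (finished file `Pool/Agent/H152/RO/T_BLK.lean` on main: edit it), but only the grid points
and the times `t ≥ 2 ^ ((A+2) j)`.
Proof. The same; for `t ≥ 2 ^ ((A+2) j)` the grid point `i / 2 ^ ((A+4) j)`, `i = ⌊t 2 ^ ((A+4) j)⌋`, has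
`i ≥ 2 ^ ((2 A + 6) j)`, as the latter is an integer `≤ t 2 ^ ((A+4) j)`. -/
def P_BLU : Prop :=
  ∀ (W : ℕ → ℝ → ℝ) (a : ℕ → ℝ) (A K₀ : ℕ) (p C D : ℝ), 0 < p → p ≤ 1 → 0 < C → 0 ≤ D → (∀ n, 0 ≤ a n) →
    (∀ n, 1 ≤ n → a n ^ 2 ≤ C) → (∀ n t, |W n t| ≤ a n) →
    (∀ (n : ℕ) (t t' : ℝ), |W n t - W n t'| ≤ a n * (2 * ((n : ℝ) + 2) ^ A) * |t - t'|) →
    (∀ j k : ℕ, K₀ ≤ j + k → ∀ i M : ℕ, i ≤ 2 ^ (k + (A + 4) * j) → 2 ^ ((2 * A + 6) * j) ≤ i → 2 ^ j ≤ M →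
      M ≤ 2 ^ (j + 1) →
      |∑ n ∈ Ico (2 ^ j) M, W n ((i : ℝ) / 2 ^ ((A + 4) * j))| ≤
        D * (2 : ℝ) ^ (-(p * j / 2)) * Real.sqrt ((j : ℝ) + k)) →
    ∃ K : ℝ, 0 ≤ K ∧ ∀ (j k : ℕ) (t : ℝ), (2 : ℝ) ^ ((A + 2) * j) ≤ t → t ≤ 2 ^ k → ∀ M : ℕ, 2 ^ j ≤ M → M ≤ 2 ^ (j + 1) →
      |∑ n ∈ Ico (2 ^ j) M, W n t| ≤ K * (2 : ℝ) ^ (-(p * j / 2)) * Real.sqrt ((j : ℝ) + k + 1)

/-- **MOU.** The model exists; in a model almost surely all `U n` lie in `[0, 1]`.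
Proof. As `RO.P_MOD` (finished file `Pool/Agent/H357/RO/T_MOD.lean` on main: edit it). -/
def P_MOU : Prop :=
  (∃ (Ω : Type) (_ : MeasurableSpace Ω) (P : Measure Ω) (U : ℕ → Ω → ℝ), ModelU P U) ∧
  ∀ (Ω : Type) [MeasurableSpace Ω] (P : Measure Ω) (U : ℕ → Ω → ℝ), ModelU P U →
    ∀ᵐ ω ∂P, ∀ n, U n ω ∈ Set.Icc (0 : ℝ) 1

/-- **WAV** (deterministic). The waves with `γ n = g n + w n u n`, `0 ≤ u n ≤ 1`: continuity, `|W n t| ≤ a n`, Lipschitz bound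
(`|cos x - cos y| ≤ |x - y|`, `0 ≤ g n + w n u n ≤ (n+2)^A + 1 ≤ 2 (n+2)^A`), `γ n ≥ √(n+2)`, and `part ≤ R a`. -/
def P_WAV : Prop :=
  ∀ (A : ℕ) (g w u a β : ℕ → ℝ), WinU A g w → (∀ n, u n ∈ Set.Icc (0 : ℝ) 1) → (∀ n, 0 ≤ a n) →
    (∀ n : ℕ, Real.sqrt ((n : ℝ) + 2) ≤ om g w u n) ∧ (∀ n, Continuous (wv a β (om g w u) n)) ∧
    (∀ n t, |wv a β (om g w u) n t| ≤ a n) ∧
    (∀ (n : ℕ) (t t' : ℝ), |wv a β (om g w u) n t - wv a β (om g w u) n t'| ≤ a n * (2 * ((n : ℝ) + 2) ^ A) * |t - t'|) ∧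
    (∀ N t, |RO.part (wv a β (om g w u)) N t| ≤ RO.R a N)

/-- **UTA.** Almost surely `UTL A` holds for the waves.
Proof. Fix `m` (countably many), `p = RO.pe m = 1 - 1/(m+2) ∈ (0, 1)`. By `RO.Amp a` with `ε = 1/(m+2)` there is `C > 0` with
`∑_{2^j ≤ n < M} a n ^ 2 ≤ C 2 ^ (-p j)`, in particular `a n ^ 2 ≤ C` for `n ≥ 1`. EVU, BLU (with the bounds of WAV, as almost surely
all `U n ∈ [0,1]` by MOU) give `K` with the block bound for all `j` with `2 ^ ((A+2) j) ≤ t`. Let `2 ^ J ≤ M ≤ M'`,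
`M' ^ (A+2) ≤ t ≤ 2 ^ k`, and let `f n = W n t` for `n < M'` and `f n = 0` otherwise. For `2 ^ j ≤ M₁ ≤ 2 ^ (j+1)`:
`∑_{2^j ≤ n < M₁} f n = ∑_{2^j ≤ n < min M₁ M'} W n t`, which is `0` if `M' ≤ 2 ^ j`, and otherwise
`2 ^ ((A+2) j) ≤ M' ^ (A+2) ≤ t` and the block bound applies with `min M₁ M' ≥ 2 ^ j`. So `RO.P_SUM` (proved:
`Pool.Agent.H230.RO.T_SUM`) gives the bound with the constant `c K`. See the finished file `Pool/Agent/H339/RO/T_TAIL.lean` for the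
same argument in the case of random phases. -/
def P_UTA : Prop :=
  ∀ (Ω : Type) [MeasurableSpace Ω] (P : Measure Ω) (U : ℕ → Ω → ℝ), ModelU P U →
    ∀ (a β g w : ℕ → ℝ) (A : ℕ), RO.Amp a → WinU A g w →
      ∀ᵐ ω ∂P, UTL A (wv a β (om g w fun n => U n ω))

/-- **AMS** (amplitudes). For every `m` there is `C` with `∑_{N ≤ n < M} a n / √(n+2) ≤ C N ^ (-(pe m / 2))` for `1 ≤ N ≤ M`.
Proof. By `RO.Amp a` with `ε = 1/(m+2)`, `1 - ε = pe m =: p`: `∑_{2^j ≤ n < 2^(j+1)} a n ^ 2 ≤ C 2 ^ (-p j)`. By Cauchy–Schwarz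
`∑_{2^j ≤ n < 2^(j+1)} a n / √(n+2) ≤ 2 ^ (-j/2) √(2 ^ j) √(C 2 ^ (-p j)) = √C 2 ^ (-p j / 2)`. Let `2 ^ J ≤ N < 2 ^ (J+1)`; the sum
over `n ≥ N` is at most the sum over the blocks `j ≥ J`, `√C 2 ^ (-p J / 2) / (1 - 2 ^ (-p/2)) ≤ C' N ^ (-p/2)`, as
`2 ^ (-J) ≤ 2 / N`. -/
def P_AMS : Prop :=
  ∀ a : ℕ → ℝ, RO.Amp a → ∀ m : ℕ, ∃ C : ℝ, 0 ≤ C ∧ ∀ N M : ℕ, 1 ≤ N → N ≤ M →
    ∑ n ∈ Ico N M, a n / Real.sqrt ((n : ℝ) + 2) ≤ C * (N : ℝ) ^ (-(RO.pe m / 2))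

/-- the primitive `F` of the series is approximated by the integrals of the partial sums -/
def Prim (W : ℕ → ℝ → ℝ) (F : ℝ → ℝ) : Prop :=
  (∀ t : ℝ, 0 ≤ t → HasSum (fun n => ∫ y in (0 : ℝ)..t, W n y) (F t)) ∧
  ∀ m : ℕ, ∃ C : ℝ, 0 ≤ C ∧ ∀ N : ℕ, 1 ≤ N → ∀ t t' : ℝ, 0 ≤ t → t ≤ t' →
    |F t' - F t - ∫ y in t..t', RO.part W N y| ≤ C * (N : ℝ) ^ (-(RO.pe m / 2))

/-- **PRI** (deterministic). The primitive exists.
Proof. `∫_t^{t'} cos (γ y + β) dy = (sin (γ t' + β) - sin (γ t + β)) / γ`, so `|∫_t^{t'} W n| ≤ 2 a n / γ n ≤ 2 a n / √(n+2)`, which is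
summable by AMS. `F t := ∑' n, ∫_0^t W n`. `F t' - F t - ∫_t^{t'} part W N = ∑_{n ≥ N} ∫_t^{t'} W n`, at most
`∑_{n ≥ N} 2 a n / √(n+2) ≤ 2 C N ^ (-(pe m / 2))` by AMS (let `M → ∞`). -/
def P_PRI : Prop :=
  ∀ a β γ : ℕ → ℝ, RO.Amp a → (∀ n : ℕ, Real.sqrt ((n : ℝ) + 2) ≤ γ n) → ∃ F : ℝ → ℝ, Prim (wv a β γ) F

/-- **UPA** (deterministic). Upper bound for the local averages.
Proof. Choose `m₁` with `c < pe m₁ / (2 (A + 2))` (`pe m → 1`), `q > 1` with `b q ^ κ < b'` and `m` with `q pe m ≥ 1`. For large `t` let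
`N = ⌊t ^ (1/(A+2))⌋₊`, `N ^ (A+2) ≤ t`, `N ≥ t ^ (1/(A+2)) / 2`. By `Prim`: `avg F c t = t ^ c ∫_t^{t + t^(-c)} part W N y dy + o(1)`, the
error being at most `t ^ c C N ^ (-(pe m₁ / 2)) → 0`. So it suffices to bound `|part W N y|` for `t ≤ y ≤ t + 1` (`t ^ (-c) ≤ 1`). Let
`k = ⌈log (t+1) / log 2⌉₊`, `y ≤ 2 ^ k`, `J = ⌈q log k / log 2⌉₊`, `2 ^ J ≤ N` for large `t`. `UTL` with `M = 2 ^ J`, `M' = N`
(`N ^ (A+2) ≤ t ≤ y`): `|part W N y| ≤ R a (2^J) + K 2 ^ (-pe m J / 2) √(J + k + 1) ≤ R a (2^J) + 2 K` as in `RO.P_UP`, and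
`R a (2^J) ≤ b (q log k + log 2) ^ κ ≤ b (q log log t + 2 q + 1) ^ κ`. See the finished file `Pool/Agent/H236/RO/T_UP.lean` on main
(proof of `RO.P_UP`): edit it. -/
def P_UPA : Prop :=
  ∀ (W : ℕ → ℝ → ℝ) (F : ℝ → ℝ) (a : ℕ → ℝ) (A : ℕ) (κ b b' c : ℝ), (∀ n, Continuous (W n)) → (∀ n, 0 ≤ a n) → UTL A W →
    (∀ N t, |RO.part W N t| ≤ RO.R a N) → Prim W F → 0 < c → c * (2 * A + 4) < 1 →
    0 < κ → 0 ≤ b → b < b' → (∀ᶠ N : ℕ in atTop, RO.R a N ≤ b * Real.log N ^ κ) →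
    ∀ᶠ t : ℝ in atTop, |avg F c t| ≤ b' * Real.log (Real.log t) ^ κ

/-- **LOA** (deterministic). Large values of the local averages.
Proof. Let `D` be the constant of `Big` for `c'`, and `q` a natural number with `q ≥ 4 (A + 2)` and `c q ≥ 4 A + 9`. For large `N` let
`t` be the time of `Big`, `t ≥ N ^ q`, `t ≤ exp (D N)`, `L = ⌊t ^ (1/(A+2))⌋₊ ≥ N ^ 4`, `L ^ (A+2) ≤ t`, `L ≥ t ^ (1/(A+2)) / 2`. For
`t ≤ y ≤ t + t ^ (-c)`: `σ part W L y ≥ σ part W (N^4) t - |part W (N^4) y - part W (N^4) t| - |∑_{N^4 ≤ n < L} W n y|`. The first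
term is `≥ c' R a N - 1`. The second is at most `∑_{n<N^4} a n 2 (n+2)^A t ^ (-c) ≤ (a 0 + √C N ^ 4) 2 (N^4+2)^A N ^ (-c q) ≤ 1` for
large `N` (`a n ^ 2 ≤ C` for `n ≥ 1` by `RO.Amp a`). The third by `UTL` with `m = 0` (`pe 0 = 1/2`), `2 ^ J ≤ N ^ 4 < 2 ^ (J+1)`,
`k = ⌈(D N + 1) / log 2⌉₊` (`y ≤ 2 ^ k`), is at most `K 2 ^ (-J/4) √(J + k + 1) ≤ 2 K N ^ (-1) √(…) ≤ 1`. By `Prim` with `m₁`,
`c < pe m₁ / (2 (A+2))`, `|avg F c t - t ^ c ∫_t^{t + t^(-c)} part W L| ≤ t ^ c C L ^ (-(pe m₁/2)) ≤ 1` for large `N`. Hence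
`σ avg F c t ≥ c' R a N - 4`. -/
def P_LOA : Prop :=
  ∀ (W : ℕ → ℝ → ℝ) (F : ℝ → ℝ) (a : ℕ → ℝ) (A : ℕ) (σ c : ℝ), (σ = 1 ∨ σ = -1) → (∀ n, Continuous (W n)) → RO.Amp a →
    (∀ (n : ℕ) (t t' : ℝ), |W n t - W n t'| ≤ a n * (2 * ((n : ℝ) + 2) ^ A) * |t - t'|) → UTL A W → Prim W F → Big a σ W →
    0 < c → c * (2 * A + 4) < 1 → ∀ c' : ℝ, 0 < c' → c' < 1 → ∃ D : ℝ, 1 ≤ D ∧ ∃ N₀ : ℕ, ∀ N : ℕ, N₀ ≤ N →
      ∃ t : ℝ, (N : ℝ) ≤ t ∧ t ≤ Real.exp (D * N) ∧ c' * RO.R a N - 4 ≤ σ * avg F c t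

/-- **LO2** (deterministic). The end of the proof of `RO.P_LOW` (finished file `Pool/Agent/H404/RO/T_LOW.lean` on main: edit it).
Proof. Choose `0 < c' < 1` with `b'' < c' b` if `b'' ≥ 0` (then `b > 0`), and `c' = 1/2` if `b'' < 0`. Take `N` large with
`b (log N) ^ κ ≤ R a N`, and `t` of the hypothesis; `σ S t ≥ c' R a N - 4`. If `b'' < 0`: `σ S t ≥ -4 ≥ b'' (log log t) ^ κ` for large `N`,
as `log log t ≥ log log N → ∞`. If `b'' ≥ 0`: `log log t ≤ log (D N) = log N + log D`, so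
`b'' (log log t) ^ κ ≤ b'' (log N + log D) ^ κ ≤ c' b (log N) ^ κ - 4 ≤ c' R a N - 4` for large `N`. As `t ≥ N`, `t` is arbitrarily
large. -/
def P_LO2 : Prop :=
  ∀ (S : ℝ → ℝ) (a : ℕ → ℝ) (σ κ b b'' : ℝ), (∀ n, 0 ≤ a n) →
    (∀ c' : ℝ, 0 < c' → c' < 1 → ∃ D : ℝ, 1 ≤ D ∧ ∃ N₀ : ℕ, ∀ N : ℕ, N₀ ≤ N →
      ∃ t : ℝ, (N : ℝ) ≤ t ∧ t ≤ Real.exp (D * N) ∧ c' * RO.R a N - 4 ≤ σ * S t) →
    0 < κ → 0 ≤ b → b'' < b → (∃ᶠ N : ℕ in atTop, b * Real.log N ^ κ ≤ RO.R a N) →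
    ∃ᶠ t : ℝ in atTop, b'' * Real.log (Real.log t) ^ κ ≤ σ * S t

/-- **SUP** (deterministic). If `F` is the primitive of `S` and `σ S ≤ b (log log) ^ κ` from some point on, then the local averages
satisfy the same with every `b' > b`.
Proof. `σ avg F c t = t ^ c ∫_t^{t + t^(-c)} σ S` (`intervalIntegral.integral_interval_sub_left`). For large `t` and
`t ≤ y ≤ t + t ^ (-c) ≤ t + 1`: if `b ≥ 0`, `σ S y ≤ b (log log (t+1)) ^ κ ≤ b' (log log t) ^ κ` for large `t`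
(`log log (t+1) / log log t → 1`; e.g. `log log (t+1) ≤ log log t + 1` and `((z+1)/z) ^ κ → 1`); if `b < 0`,
`σ S y ≤ b (log log t) ^ κ`. Integrate (`intervalIntegral.integral_mono_on`, the right side is constant). -/
def P_SUP : Prop :=
  ∀ (S F : ℝ → ℝ) (σ κ b b' c : ℝ), (σ = 1 ∨ σ = -1) → 0 < κ → b < b' → 0 < c →
    (∀ t : ℝ, 0 ≤ t → IntervalIntegrable S volume 0 t ∧ ∫ y in (0 : ℝ)..t, S y = F t) →
    (∀ᶠ y : ℝ in atTop, σ * S y ≤ b * Real.log (Real.log y) ^ κ) →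
    ∀ᶠ t : ℝ in atTop, σ * avg F c t ≤ b' * Real.log (Real.log t) ^ κ

/-- **FI3** (deterministic, extended reals). One half of `RO.P_FIN` (finished file `Pool/Agent/H955/RO/T_FIN.lean` on main: edit it):
with hypothesis (L) only, the upper limit is at least `Λ` and the lower limit at most `-Λ`. -/
def P_FI3 : Prop :=
  ∀ (S : ℝ → ℝ) (a : ℕ → ℝ) (κ : ℝ), (∀ n, 0 ≤ a n) → 0 < κ →
    (∀ σ b b'' : ℝ, (σ = 1 ∨ σ = -1) → 0 ≤ b → b'' < b → (∃ᶠ N : ℕ in atTop, b * Real.log N ^ κ ≤ RO.R a N) →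
      ∃ᶠ t : ℝ in atTop, b'' * Real.log (Real.log t) ^ κ ≤ σ * S t) →
    ∀ c : ℝ,
      RO.Lam a κ ≤ Filter.limsup (fun x : ℝ => (((Real.sqrt x * (c + S (Real.log x))) /
          (Real.sqrt x * Real.log (Real.log (Real.log x)) ^ κ) : ℝ) : EReal)) atTop ∧
      Filter.liminf (fun x : ℝ => (((Real.sqrt x * (c + S (Real.log x))) /
          (Real.sqrt x * Real.log (Real.log (Real.log x)) ^ κ) : ℝ) : EReal)) atTop ≤ -RO.Lam a κ

end Pool.Agent.H705.FP
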